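import Pool.Agent.H66.AV.Defs

/-!
# Protocols which are not better than guessing: targets, part F
-/

set_option autoImplicit false

namespace Pool.Agent.H66.AV

open Finset Pool.Agent.H6.NB Pool.Agent.H70.OQ Pool.Agent.H70.EH Pool.Agent.H70.EI Pool.Agent.H78.XQ
open Pool.Agent.H66.IP (Local ins sp dm Good IsZ scl mBp m0p)
open Pool.Agent.H66.IQ
open Pool.Agent.H75.OM (BPos)

/-! ## Protocols -/

/-- ANP: both protocols accept. -/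
def T_ANP : Prop := ∀ (k : ℕ) (G₁ G₂ : Prot k), ∃ G : Prot k, G.moves ≤ G₁.moves + G₂.moves ∧
  (∀ d₁ d₂ s, Bd d₁ s G₁ → Bd d₂ s G₂ → Bd (d₁ + d₂) s G) ∧
  ∀ O, G.val O = G₁.val O * G₂.val O

/-- ORP: one of the protocols accepts. -/
def T_ORP : Prop := ∀ (k : ℕ) (G₁ G₂ : Prot k), ∃ G : Prot k, G.moves ≤ G₁.moves + G₂.moves ∧
  (∀ d₁ d₂ s, Bd d₁ s G₁ → Bd d₂ s G₂ → Bd (d₁ + d₂) s G) ∧
  ∀ O, 1 - G.val O = (1 - G₁.val O) * (1 - G₂.val O)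

/-- POW: repetitions. -/
def T_POW : Prop := ∀ (k : ℕ) (G : Prot k) (r : ℕ),
  (∃ G' : Prot k, G'.moves ≤ r * G.moves ∧ (∀ d s, Bd d s G → Bd (r * d) s G') ∧
    ∀ O, G'.val O = G.val O ^ r) ∧
  ∃ G' : Prot k, G'.moves ≤ r * G.moves ∧ (∀ d s, Bd d s G → Bd (r * d) s G') ∧
    ∀ O, 1 - G'.val O = (1 - G.val O) ^ r

/-- AMP: amplification. -/
def T_AMP : Prop := ∀ (k : ℕ) (G : Prot k) (a : ℕ), 1 ≤ a → ∃ G' : Prot k,
  G'.moves ≤ (2 * a + 1) * 4 ^ a * G.moves ∧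
  (∀ d s, Bd d s G → Bd ((2 * a + 1) * 4 ^ a * d) s G') ∧
  ∀ O, (2 / 3 ≤ G.val O → 1 - (1 / 2) ^ a ≤ G'.val O) ∧ (G.val O ≤ 1 / 3 → G'.val O ≤ (1 / 2) ^ a)

/-! ## Two protocols do not see a block -/

/-- TPR: the product of two games. -/
def T_TPR : Prop := ∀ (V : Type) [Fintype V] (t₁ t₂ : Tr V), ∃ t : Tr V, t.dp ≤ t₁.dp + t₂.dp ∧
  (∀ S d, 2 ≤ S → t₁.Cb S d → t₂.Cb S d → t.Cb S (d + 2)) ∧ ∀ y, t.ev y = t₁.ev y * t₂.ev y

/-- PF2: a pair of protocols does not see a block. -/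
def T_PF2 : Prop := ∀ (V : ℕ → Local) (k : ℕ), ∃ n₀, ∀ n ≥ n₀, ∀ G₁ G₂ : Prot k,
  G₁.Within (2 ^ (n / 4)) → G₂.Within (2 ^ (n / 4)) → ∀ (E : Finset (ℕ × List Bool))
    (O : (∀ p : {a // a ∈ E}, CP (dm V) p.1) → (List Bool → Bool) → List Bool → Bool),
    IsZ (dm V) E O → ∀ (P : ∀ p : {a // a ∈ E}, CP (dm V) p.1) (g₁ g₂ : List Bool → Bool)
      (p : ℕ × List Bool) (h : p ∈ E) (b : Bool), n + 1 ≤ scl V p →
      |∑ c : CP (dm V) p, mBp V p b c * (G₁.val (O (Function.update P ⟨p, h⟩ c) g₁) *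
          G₂.val (O (Function.update P ⟨p, h⟩ c) g₂)) -
        ∑ c : CP (dm V) p, m0p V p c * (G₁.val (O (Function.update P ⟨p, h⟩ c) g₁) *
          G₂.val (O (Function.update P ⟨p, h⟩ c) g₂))| ≤ (1 / 8) ^ scl V p

/-! ## The special row is not noticed -/

/-- TBJ: a formula is rarely sensitive to many rows. -/
def T_TBJ : Prop := ∀ k : ℕ, ∃ n₀, ∀ n ≥ n₀, ∃ K : ℕ, 2 ^ (n / 3 + 1) * (2 ^ (n / 6) * K) ≤ 2 ^ n ∧
  ∀ f : (Nn n k → Bool) → Bool, Fm (2 ^ (2 ^ (n / 6) + 1)) (2 ^ (n / 6) + 1) k f →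
    2 ^ (2 * 2 ^ (n / 6) + n + 1) * (univ.filter fun H : Hid (Fin n → Bool) (Ys n) k =>
      K < (senT k f H).card).card ≤ Fintype.card (Hid (Fin n → Bool) (Ys n) k)

/-- PGA: protocols do not notice a special row. -/
def T_PGA : Prop := ∀ k : ℕ, ∃ n₀, ∀ n ≥ n₀, ∀ G : Prot k, G.Within (2 ^ (n / 6)) →
  ∀ O : (Nn n k → Bool) → List Bool → Bool, Lit O →
  ∃ a : Hid (Fin n → Bool) (Ys n) k × (Fin n → Bool) → ℝ, (∀ z, 0 ≤ a z) ∧
    ∑ z, a z ≤ Fintype.card (Hid (Fin n → Bool) (Ys n) k × (Fin n → Bool)) * (1 / 2) ^ (n / 3) ∧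
    ∀ z, G.val (O (tabT k z.1)) - G.val (O (tabU k z.1 z.2)) ≤ a z

/-- NVB: an inequality. -/
def T_NVB : Prop := ∀ (v v' a : ℝ) (B : ℕ), 1 ≤ B → 0 ≤ v → v ≤ 1 → 0 ≤ v' → v' ≤ 1 → 0 ≤ a →
  v - v' ≤ a → v * (1 - v') ^ B ≤ 1 / B + 2 * a

/-! ## Tables for all inputs: the ideal bounds -/

/-- ID1: the first moment of the second sum. -/
def T_ID1 : Prop := ∀ k : ℕ, ∃ n₀, ∀ n ≥ n₀, ∀ (A C : (Fin n → Bool) → Prot k) (B : ℕ), 1 ≤ B →
  (∀ x, (A x).Within (2 ^ (n / 6))) → (∀ x O, 1 - (C x).val O = (1 - (A x).val O) ^ B) →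
  ∀ Q : ((Fin n → Bool) → Nn n k → Bool) → List Bool → Bool, LitT Q →
  ∑ z, s1 A C Q z ≤ Fintype.card (Wn n k) * 2 ^ n * (1 / B + 2 * (1 / 2) ^ (n / 3))

/-- DSG: sums of signs. -/
def T_DSG : Prop := ∀ (ι : Type) [Fintype ι] [DecidableEq ι] (w : (ι → Bool) → ℝ),
  (∀ b, |w b| ≤ 1) → |∑ b : ι → Bool, (∑ i, sg (b i)) * w b| ≤
    2 ^ Fintype.card ι * √(Fintype.card ι)

/-- DPL: the sum of the absolute values of the differences. -/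
def T_DPL : Prop := ∀ (ι : Type) [Fintype ι] [DecidableEq ι] (w : (ι → Bool) → ℝ),
  (∀ b, 0 ≤ w b ∧ w b ≤ 1) →
  ∑ i, ∑ b : ι → Bool, |w (Function.update b i false) - w (Function.update b i true)| ≤
    2 * ∑ i, ∑ b : ι → Bool,
      max (w (Function.update b i false) - w (Function.update b i true)) 0 +
    2 * (2 ^ Fintype.card ι * √(Fintype.card ι))

/-- OFD: a pair of inputs. -/
def T_OFD : Prop := ∀ (n k : ℕ) (A : (Fin n → Bool) → Prot k)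
  (Q : ((Fin n → Bool) → Nn n k → Bool) → List Bool → Bool) (x x' : Fin n → Bool), x ≠ x' →
  ∑ z : Wn n k, sg (z x).1 * sg (z x').1 * ((v0 A Q z x - 1 / 2) * (v0 A Q z x' - 1 / 2)) ≤
    1 / 4 * ∑ z : Wn n k, |v0 A Q (Function.update z x' (false, (z x').2)) x -
      v0 A Q (Function.update z x' (true, (z x').2)) x|

/-- DTN: the influence of the tables of the other inputs. -/
def T_DTN : Prop := ∀ k : ℕ, ∃ n₀, ∀ n ≥ n₀, ∀ A : (Fin n → Bool) → Prot k,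
  (∀ x, (A x).Within (2 ^ (n / 6))) →
  ∀ Q : ((Fin n → Bool) → Nn n k → Bool) → List Bool → Bool, LitT Q → ∀ x : Fin n → Bool,
  ∑ x' ∈ univ.erase x, ∑ z : Wn n k, |v0 A Q (Function.update z x' (false, (z x').2)) x -
      v0 A Q (Function.update z x' (true, (z x').2)) x| ≤
    Fintype.card (Wn n k) * (2 * 2 ^ n * (1 / 2) ^ (n / 3) + 2 * √(2 ^ n))

/-- ID2: the second moment of the first sum. -/
def T_ID2 : Prop := ∀ k : ℕ, ∃ n₀, ∀ n ≥ n₀, ∀ A : (Fin n → Bool) → Prot k,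
  (∀ x, (A x).Within (2 ^ (n / 6))) →
  ∀ Q : ((Fin n → Bool) → Nn n k → Bool) → List Bool → Bool, LitT Q →
  ∑ z, s0 A Q z ^ 2 ≤ Fintype.card (Wn n k) * 4 ^ n * (2 * (1 / 2) ^ (n / 3))

/-! ## The blocks -/

/-- HY4: the masses, and the replacement of the large coordinates. -/
def T_HY4 : Prop := ∀ (I : Type) [Fintype I] [DecidableEq I] (T : I → Type) [∀ j, Fintype (T j)]
  (ord : I → ℕ) (m : Bool → ∀ j, T j → ℝ) (f : (∀ j, T j) → I → Bool),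
  (∀ b j p, 0 ≤ m b j p) → (∀ b j, ∑ p, m b j p ≤ 1) →
  (∀ i j P p, ord i ≤ ord j → f (Function.update P j p) i = f P i) →
  ∑ P : (∀ j, T j), ∏ j, m (f P j) j (P j) ≤ 1 ∧
  ∀ (n : ℕ) (m₀ : ∀ j, T j → ℝ) (F : (∀ j, T j) → ℝ) (η : I → ℝ),
    (∀ j p, 0 ≤ m₀ j p) → (∀ j, ∑ p, m₀ j p ≤ 1) → (∀ j, 0 ≤ η j) →
    (∀ b j P, n < ord j → |∑ p, m b j p * F (Function.update P j p) -
      ∑ p, m₀ j p * F (Function.update P j p)| ≤ η j) →
    |∑ P : (∀ j, T j), (∏ j, m (f P j) j (P j)) * F P -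
      ∑ P : (∀ j, T j), (∏ j, if ord j ≤ n then m (f P j) j (P j) else m₀ j (P j)) * F P| ≤
      ∑ j ∈ univ.filter (fun j => n < ord j), η j

/-- WMS: the masses of the weights. -/
def T_WMS : Prop := ∀ (V : ℕ → Local) (E : Finset (ℕ × List Bool))
  (O : (∀ p : {a // a ∈ E}, CP (dm V) p.1) → (List Bool → Bool) → List Bool → Bool),
  IsZ (dm V) E O → ∀ g : List Bool → Bool,
  (∀ n P, 0 ≤ wgt V E O n g P) ∧ (∀ n, ∑ P, wgt V E O n g P ≤ 1) ∧ (∀ P, 0 ≤ wgl V E O g P) ∧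
  1 - (1 / 4) ^ 20 ≤ ∑ P, wgl V E O g P

/-- WLC: the weights of the blocks of small scale depend only on the short strings. -/
def T_WLC : Prop := ∀ (V : ℕ → Local) (E : Finset (ℕ × List Bool))
  (O : (∀ p : {a // a ∈ E}, CP (dm V) p.1) → (List Bool → Bool) → List Bool → Bool),
  IsZ (dm V) E O → ∀ (n : ℕ) (g g' : List Bool → Bool), (∀ w, w.length ≤ n → g w = g' w) →
  ∀ P, wgt V E O n g P = wgt V E O n g' P

/-- HYL: the blocks of large scale are replaced by uniform ones. -/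
def T_HYL : Prop := ∀ (V : ℕ → Local) (E : Finset (ℕ × List Bool))
  (O : (∀ p : {a // a ∈ E}, CP (dm V) p.1) → (List Bool → Bool) → List Bool → Bool),
  IsZ (dm V) E O → ∀ (n : ℕ) (g : List Bool → Bool)
    (Φ : (∀ p : {a // a ∈ E}, CP (dm V) p.1) → ℝ), 20 ≤ n →
  (∀ P (p : ℕ × List Bool) (h : p ∈ E) (b : Bool), n + 1 ≤ scl V p →
    |∑ c : CP (dm V) p, mBp V p b c * Φ (Function.update P ⟨p, h⟩ c) -
      ∑ c : CP (dm V) p, m0p V p c * Φ (Function.update P ⟨p, h⟩ c)| ≤ (1 / 8) ^ scl V p) →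
  |∑ P, wgl V E O g P * Φ P - ∑ P, wgt V E O n g P * Φ P| ≤ (1 / 4) ^ n

/-- REQ: the expectation of the test function. -/
def T_REQ : Prop := ∀ (V : ℕ → Local) (k : ℕ), ∃ n₀, ∀ n ≥ n₀,
  ∀ (A C : (Fin n → Bool) → Prot k) (B : ℕ), 1 ≤ B → (∀ x, (A x).Within (2 ^ (n / 6))) →
  (∀ x, (C x).Within (2 ^ (n / 4))) → (∀ x O, 1 - (C x).val O = (1 - (A x).val O) ^ B) →
  ∀ ε : ℝ, 0 < ε → ∀ (E : Finset (ℕ × List Bool))
    (O : (∀ p : {a // a ∈ E}, CP (dm V) p.1) → (List Bool → Bool) → List Bool → Bool),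
    IsZ (dm V) E O → ∀ g : List Bool → Bool,
  ∑ z : Wn n k, ∑ P, wgl V E O (ovl n k g (tbl z)) P *
      tst ε A C (fun T => O P (ovl n k g T)) z ≤
    Fintype.card (Wn n k) * (32 / ε ^ 2 * (1 / 2) ^ (n / 3) +
      2 / ε * (1 / B + 2 * (1 / 2) ^ (n / 3)) + (36 / ε ^ 2 + 4 / ε) * (1 / 4) ^ n)

/-! ## Strings, languages, counting -/

/-- AST: the strings of the tables. -/
def T_AST : Prop := (∀ (n k : ℕ) (x : Fin n → Bool) (q : Nn n k), n + 2 ≤ (astr n k x q).length ∧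
    (astr n k x q).length ≤ 2 ^ (k + 1) * n + k + 2) ∧
  (∀ (n k : ℕ) (x x' : Fin n → Bool) (q q' : Nn n k), astr n k x q = astr n k x' q' →
    x = x' ∧ q = q') ∧
  ∀ (n k n' k' : ℕ) (x : Fin n → Bool) (q : Nn n k) (x' : Fin n' → Bool) (q' : Nn n' k'),
    astr n k x q = astr n' k' x' q' → n = n' ∧ k = k'

/-- ALG: the language on tables, and on which strings it depends. -/
def T_ALG : Prop := (∀ (n k : ℕ) (z : Wn n k) (x : Fin n → Bool) (O : List Bool → Bool),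
    (∀ q, O (astr n k x q) = tbl z x q) → (List.ofFn x ∈ alang k O ↔ (z x).1 = true)) ∧
  ∀ (k : ℕ) (x : List Bool) (O O' : List Bool → Bool),
    (∀ w : List Bool, w.length ≤ 2 ^ (k + 1) * x.length + k + 2 → O w = O' w) →
    (x ∈ alang k O ↔ x ∈ alang k O')

/-- AML: the language is in the level `k + 1`. -/
def T_AML : Prop := ∀ k : ℕ, ∃ F : Machine (k + 1), ∀ O, F.lang O = alang k O

/-- OVL: oracles with tables. -/
def T_OVL : Prop := ∀ (n k : ℕ) (g : List Bool → Bool),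
  (∀ T x q, ovl n k g T (astr n k x q) = T x q) ∧
  (∀ T w, (∀ x q, w ≠ astr n k x q) → ovl n k g T w = g w) ∧
  (∀ T T', ovl n k (ovl n k g T') T = ovl n k g T) ∧
  ∀ (V : ℕ → Local) (E : Finset (ℕ × List Bool))
    (O : (∀ p : {a // a ∈ E}, CP (dm V) p.1) → (List Bool → Bool) → List Bool → Bool),
    IsZ (dm V) E O → ∀ P, LitT (n := n) (k := k) (fun T => O P (ovl n k g T)) ∧
      ∀ T x q, O P (ovl n k g T) (astr n k x q) = T x q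

/-- GZA: one of the tables is changed. -/
def T_GZA : Prop := ∀ (M : ℕ) (z : Za M) (t : Fin M × Fin M) (c : Wn t.2.1 t.1.1),
  gza M (Function.update z t c) = ovl t.2.1 t.1.1 (gza M z) (tbl c)

/-- RCT: if the test function is small, the protocols are not right too often. -/
def T_RCT : Prop := ∀ (n k : ℕ) (G : List Bool → Prot k) (A C : (Fin n → Bool) → Prot k)
  (a B : ℕ) (ε : ℝ), 0 < ε → B * (1 / 2 : ℝ) ^ a ≤ ε / 4 →
  (∀ x O, (2 / 3 ≤ (G (List.ofFn x)).val O → 1 - (1 / 2) ^ a ≤ (A x).val O) ∧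
    ((G (List.ofFn x)).val O ≤ 1 / 3 → (A x).val O ≤ (1 / 2) ^ a)) →
  (∀ x O, 1 - (C x).val O = (1 - (A x).val O) ^ B) → 1 ≤ B →
  ∀ (Q : ((Fin n → Bool) → Nn n k → Bool) → List Bool → Bool) (z : Wn n k),
    (∀ x, List.ofFn x ∈ alang k (Q (tbl z)) ↔ (z x).1 = true) → tst ε A C Q z < 1 →
    (rights G (Q (tbl z)) n : ℝ) ≤ (1 / 2 + ε) * 2 ^ n

/-- NUM: numbers. -/
def T_NUM : Prop := ∃ n₀, ∀ n ≥ n₀,
  (2 * (n / 64 + n / 32 + 4) + 1) * 4 ^ (n / 64 + n / 32 + 4) * 2 ^ (n / 16) ≤ 2 ^ (n / 6) ∧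
  2 ^ (n / 32) * ((2 * (n / 64 + n / 32 + 4) + 1) * 4 ^ (n / 64 + n / 32 + 4) * 2 ^ (n / 16)) ≤
    2 ^ (n / 4) ∧
  ((2 ^ (n / 32) : ℕ) : ℝ) * (1 / 2) ^ (n / 64 + n / 32 + 4) ≤ (1 / 2) ^ (n / 64) / 4 ∧
  32 / ((1 / 2 : ℝ) ^ (n / 64)) ^ 2 * (1 / 2) ^ (n / 3) +
      2 / (1 / 2) ^ (n / 64) * (1 / ((2 ^ (n / 32) : ℕ) : ℝ) + 2 * (1 / 2) ^ (n / 3)) +
      (36 / ((1 / 2 : ℝ) ^ (n / 64)) ^ 2 + 4 / (1 / 2) ^ (n / 64)) * (1 / 4) ^ n ≤
    (1 / 2) ^ (n / 100)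

/-! ## The theorem -/

/-- SUM: the expectation of the test function for all tables at once. -/
def T_SUM : Prop := ∀ (V : ℕ → Local) (k : ℕ) (G : List Bool → Prot k),
  (∃ n₀, ∀ x : List Bool, n₀ ≤ x.length → (G x).Within (2 ^ (x.length / 16))) → ∃ n₁, ∀ n ≥ n₁,
  ∃ A C : (Fin n → Bool) → Prot k,
    (∀ (Q : ((Fin n → Bool) → Nn n k → Bool) → List Bool → Bool) (z : Wn n k),
      0 ≤ tst ((1 / 2) ^ (n / 64)) A C Q z ∧
      ((∀ x, List.ofFn x ∈ alang k (Q (tbl z)) ↔ (z x).1 = true) →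
        tst ((1 / 2) ^ (n / 64)) A C Q z < 1 →
        (rights G (Q (tbl z)) n : ℝ) ≤ (1 / 2 + (1 / 2) ^ (n / 64)) * 2 ^ n)) ∧
    ∀ (M : ℕ) (hk : k < M) (hn : n < M) (E : Finset (ℕ × List Bool))
      (O : (∀ p : {a // a ∈ E}, CP (dm V) p.1) → (List Bool → Bool) → List Bool → Bool),
      IsZ (dm V) E O →
      ∑ z : Za M, ∑ P, wgl V E O (gza M z) P *
        tst ((1 / 2) ^ (n / 64)) A C (fun T => O P (ovl n k (gza M z) T)) (z (⟨k, hk⟩, ⟨n, hn⟩)) ≤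
      Fintype.card (Za M) * (1 / 2) ^ (n / 100)

/-- FMX: the oracle for finitely many requirements. -/
def T_FMX : Prop := ∀ (V : ℕ → Local) (G : ℕ → (k : ℕ) × (List Bool → Prot k)),
  (∀ j, ∃ n₀, ∀ x : List Bool, n₀ ≤ x.length → ((G j).2 x).Within (2 ^ (x.length / 16))) →
  ∃ N : ℕ → ℕ, ∀ M : ℕ, ∃ O : List Bool → Bool, (∀ p, (sp V p).length ≤ M → Good V p O) ∧
    ∀ j < M, ∀ n < M, N j ≤ n →
      (rights (G j).2 O n : ℝ) ≤ (1 / 2 + (1 / 2) ^ (n / 64)) * 2 ^ n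

/-- CPT: compactness. -/
def T_CPT : Prop := ∀ C : ℕ → (List Bool → Bool) → Prop,
  (∀ i, ∃ L, ∀ O O' : List Bool → Bool, (∀ w, w.length ≤ L → O w = O' w) → C i O → C i O') →
  (∀ M, ∃ O, ∀ i < M, C i O) → ∃ O, ∀ i, C i O

/-- GDL: it depends on finitely many strings whether an instance is good. -/
def T_GDL : Prop := ∀ (V : ℕ → Local) (p : ℕ × List Bool), ∃ L, ∀ O O' : List Bool → Bool,
  (∀ w, w.length ≤ L → O w = O' w) → Good V p O → Good V p O'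

/-- RLO: the number of right inputs depends on finitely many strings. -/
def T_RLO : Prop := ∀ (k : ℕ) (G : List Bool → Prot k) (n : ℕ), ∃ L, ∀ O O' : List Bool → Bool,
  (∀ w, w.length ≤ L → O w = O' w) → rights G O n = rights G O' n

/-- FI6: the theorem. -/
def T_FI6 : Prop := ∀ (V : ℕ → Local) (G : ℕ → (k : ℕ) × (List Bool → Prot k)),
  (∀ j, ∃ n₀, ∀ x : List Bool, n₀ ≤ x.length → ((G j).2 x).Within (2 ^ (x.length / 16))) →
  ∃ O : List Bool → Bool,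
    (∀ i x, ((V i).acc x O → (exact (ins (V i).c i x)).prob O = 1) ∧
      (¬ (V i).acc x O → (exact (ins (V i).c i x)).prob O = 0)) ∧
    ∀ j, ∃ n₀, ∀ n ≥ n₀, (rights (G j).2 O n : ℝ) ≤ (1 / 2 + (1 / 2) ^ (n / 64)) * 2 ^ n

end Pool.Agent.H66.AV
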