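import Pool.Agent.H10.AVH.FMX
import Pool.Agent.H10.AVH.SUM
import Pool.Agent.H12.AVH.ID1
import Pool.Agent.H16.AVH.TPR
import Pool.Agent.H18.AV.FI6
import Pool.Agent.H20.AVH.PF2
import Pool.Agent.H20.AVH.RCT
import Pool.Agent.H23.AV.HY4
import Pool.Agent.H29.AVH.ID2
import Pool.Agent.H29.AVH.OFD
import Pool.Agent.H29.AVH.WMS
import Pool.Agent.H37.AVH.DPL
import Pool.Agent.H42.AVH.ORP
import Pool.Agent.H47.AVH.AML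
import Pool.Agent.H47.AVH.AMP
import Pool.Agent.H55.AVH.DSG
import Pool.Agent.H62.AVH.TBJ
import Pool.Agent.H63.AVH.HYL
import Pool.Agent.H64.AVH.WLC
import Pool.Agent.H66.AVH.ANP
import Pool.Agent.H66.AVH.CPT
import Pool.Agent.H66.AVH.DTN
import Pool.Agent.H66.AVH.NVB
import Pool.Agent.H66.AVH.REQ
import Pool.Agent.H66.IQ.All
import Pool.Agent.H69.AVH.GZA
import Pool.Agent.H75.AVH.PGA
import Pool.Agent.H79.AVH.OVL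
import Pool.Agent.H8.AVH.ALG
import Pool.Agent.H80.AVH.RLO
import Pool.Agent.H86.AVH.GDL
import Pool.Agent.H86.AVH.POW
import Pool.Agent.H99.AVH.AST
import Pool.Agent.H99.AVH.NUM

/-!
# Assembly: protocols which are not better than guessing
-/

set_option autoImplicit false

namespace Pool.Agent.H66.AV

theorem pf_ANP : T_ANP := Pool.Agent.H66.AVH.pf_ANP

theorem pf_ORP : T_ORP := Pool.Agent.H42.AVH.pf_ORP

theorem pf_POW : T_POW := Pool.Agent.H86.AVH.pf_POW pf_ANP pf_ORP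

theorem pf_AMP : T_AMP := Pool.Agent.H47.AVH.pf_AMP pf_POW

theorem pf_TPR : T_TPR := Pool.Agent.H16.AVH.pf_TPR Pool.Agent.H70.EI.pf_CLB_NB

theorem pf_PF2 : T_PF2 := Pool.Agent.H20.AVH.pf_PF2 Pool.Agent.H66.IQ.pf_PTR pf_TPR
  Pool.Agent.H66.IP.pf_IZU Pool.Agent.H66.IP.pf_SPF Pool.Agent.H66.IQ.pf_BFA

theorem pf_TBJ : T_TBJ := Pool.Agent.H62.AVH.pf_TBJ Pool.Agent.H70.EI.pf_TBL_OQ

theorem pf_PGA : T_PGA := Pool.Agent.H75.AVH.pf_PGA Pool.Agent.H66.IQ.pf_EXP pf_TBJ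
  Pool.Agent.H70.EI.pf_FML

theorem pf_NVB : T_NVB := Pool.Agent.H66.AVH.pf_NVB

theorem pf_ID1 : T_ID1 := Pool.Agent.H12.AVH.pf_ID1 pf_PGA pf_NVB

theorem pf_DSG : T_DSG := Pool.Agent.H55.AVH.pf_DSG

theorem pf_DPL : T_DPL := Pool.Agent.H37.AVH.pf_DPL pf_DSG

theorem pf_OFD : T_OFD := Pool.Agent.H29.AVH.pf_OFD

theorem pf_DTN : T_DTN := Pool.Agent.H66.AVH.pf_DTN pf_PGA pf_DPL

theorem pf_ID2 : T_ID2 := Pool.Agent.H29.AVH.pf_ID2 pf_OFD pf_DTN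

theorem pf_HY4 : T_HY4 := Pool.Agent.H23.AV.pf_HY4

theorem pf_WMS : T_WMS := Pool.Agent.H29.AVH.pf_WMS pf_HY4 Pool.Agent.H66.IP.pf_MSB
  Pool.Agent.H66.IP.pf_SMS Pool.Agent.H66.IP.pf_FDC

theorem pf_WLC : T_WLC := Pool.Agent.H64.AVH.pf_WLC Pool.Agent.H66.IP.pf_IZU

theorem pf_HYL : T_HYL := Pool.Agent.H63.AVH.pf_HYL pf_HY4 Pool.Agent.H66.IP.pf_MSB
  Pool.Agent.H66.IP.pf_SMS Pool.Agent.H66.IP.pf_FDC

theorem pf_AST : T_AST := Pool.Agent.H99.AVH.pf_AST Pool.Agent.H66.IP.pf_PLT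

theorem pf_ALG : T_ALG := Pool.Agent.H8.AVH.pf_ALG

theorem pf_AML : T_AML := Pool.Agent.H47.AVH.pf_AML

theorem pf_OVL : T_OVL := Pool.Agent.H79.AVH.pf_OVL pf_AST Pool.Agent.H66.IP.pf_SPF
  Pool.Agent.H66.IP.pf_IZU

theorem pf_GZA : T_GZA := Pool.Agent.H69.AVH.pf_GZA pf_AST

theorem pf_REQ : T_REQ := Pool.Agent.H66.AVH.pf_REQ pf_PF2 pf_WMS pf_WLC pf_HYL pf_ID1 pf_ID2
  pf_AST pf_OVL Pool.Agent.H66.IP.pf_MSB

theorem pf_RCT : T_RCT := Pool.Agent.H20.AVH.pf_RCT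

theorem pf_NUM : T_NUM := Pool.Agent.H99.AVH.pf_NUM

theorem pf_SUM : T_SUM := Pool.Agent.H10.AVH.pf_SUM pf_AMP pf_POW pf_NUM pf_REQ pf_RCT pf_GZA
  pf_OVL

theorem pf_FMX : T_FMX := Pool.Agent.H10.AVH.pf_FMX pf_SUM pf_ALG pf_OVL pf_GZA
  Pool.Agent.H66.IP.pf_ISZ Pool.Agent.H66.IP.pf_SPF pf_WMS

theorem pf_CPT : T_CPT := Pool.Agent.H66.AVH.pf_CPT

theorem pf_GDL : T_GDL := Pool.Agent.H86.AVH.pf_GDL Pool.Agent.H66.IP.pf_GLC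

theorem pf_RLO : T_RLO := Pool.Agent.H80.AVH.pf_RLO Pool.Agent.H66.IQ.pf_PLO pf_ALG

theorem pf_FI6 : T_FI6 := Pool.Agent.H18.AV.pf_FI6 pf_FMX pf_CPT pf_GDL pf_RLO
  Pool.Agent.H66.IP.pf_SPF Pool.Agent.H78.XQ.pf_EXA

end Pool.Agent.H66.AV
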