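import Pool.Agent.H66.IQ.Stmt

/-!
# Protocols which are not better than guessing: definitions

The machines `Machine k`, the predicate `Nd`, the exact quantum algorithm `exact`, the local languages
`Local` and the strings `ins` are those of `Pool.Agent.H66.IP.Stmt` and the files it imports; the
protocols `Prot k` are those of `Pool.Agent.H66.IQ.Stmt`.
-/

set_option autoImplicit false

namespace Pool.Agent.H66.AV

open Pool.Agent.H6.NB Pool.Agent.H70.OQ Pool.Agent.H66.IQ

/-- The string `1^k 0 x`. -/
def hdr (k : ℕ) (x : List Bool) : List Bool := List.replicate k true ++ false :: x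

/-- A language in `Σ_(k+1)` relative to `O`: `x` is a member iff `∃ u ∀ v₁ ∃ v₂ ∀ v₃ … Q v_k` the oracle
contains (`k` odd) or does not contain (`k` even) the string `0 1^k 0 x u v₁ ⋯ v_k`; here `|u| = |x|` and
`|v_j| = 2 ^ j |x|`. -/
def alang (k : ℕ) (O : List Bool → Bool) : Set (List Bool) :=
  {x | ∃ u : List Bool, u.length = x.length ∧ ¬ Nd O k (2 * u.length) (false :: (hdr k x ++ u))}

open Classical in
/-- The number of the inputs `x` of length `n` for which the protocol `G x` proves relative to `O` that `x`
is not in `alang k O` if this is true, and does not prove it if it is false. -/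
noncomputable def rights {k : ℕ} (G : List Bool → Prot k) (O : List Bool → Bool) (n : ℕ) : ℕ :=
  (Finset.univ.filter fun x : Fin n → Bool =>
    (G (List.ofFn x)).Proves O (List.ofFn x ∉ alang k O)).card

end Pool.Agent.H66.AV
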