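import Pool.Agent.H66.IQ.TE
import Pool.Agent.H66.AV.Stmt

/-!
# Protocols which are not better than guessing: definitions for the proof
-/

set_option autoImplicit false

namespace Pool.Agent.H66.AV

open Finset Pool.Agent.H6.NB Pool.Agent.H70.OQ Pool.Agent.H70.EH Pool.Agent.H70.EI Pool.Agent.H78.XQ
open Pool.Agent.H66.IP (Local ins sp dm Good Ext Fool IsZ scl mBp m0p)
open Pool.Agent.H66.IQ

/-- Each examination has at most `d` questions, of size at most `s`. -/
def Bd {k : ℕ} (d s : ℕ) : Prot k → Prop
  | .test T => T.depth ≤ d ∧ T.Small s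
  | .coin l r => Bd d s l ∧ Bd d s r
  | .say l r => Bd d s l ∧ Bd d s r

/-- The random choices for the tables of level `k` for all inputs of length `n`: for each input `x` a bit
(is there a special row), the hidden children, and the row. -/
abbrev Wn (n k : ℕ) : Type :=
  (Fin n → Bool) → Bool × Hid (Fin n → Bool) (Ys n) k × (Fin n → Bool)

/-- The tables. -/
def tbl {n k : ℕ} (z : Wn n k) (x : Fin n → Bool) : Nn n k → Bool :=
  if (z x).1 then tabU k (z x).2.1 (z x).2.2 else tabT k (z x).2.1

/-- The special row of the table of `x` is removed. -/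
def zer {n k : ℕ} (z : Wn n k) (x : Fin n → Bool) : Wn n k := Function.update z x (false, (z x).2)

/-- The string at the place `q` of the table of `x`. -/
def astr (n k : ℕ) (x : Fin n → Bool) (q : Nn n k) : List Bool :=
  false :: (hdr k (List.ofFn x) ++ nstr n k q)

open Classical in
/-- The oracle `g` in which the strings of the tables of level `k` for the inputs of length `n` have the
values `T`. -/
noncomputable def ovl (n k : ℕ) (g : List Bool → Bool) (T : (Fin n → Bool) → Nn n k → Bool)
    (w : List Bool) : Bool :=
  if h : ∃ y : (Fin n → Bool) × Nn n k, w = astr n k y.1 y.2 then T h.choose.1 h.choose.2 else g w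

/-- An oracle which consists of constants and of the entries of the tables. -/
def LitT {n k : ℕ} (Q : ((Fin n → Bool) → Nn n k → Bool) → List Bool → Bool) : Prop :=
  ∀ w, (∃ b, ∀ T, Q T w = b) ∨ ∃ x q, ∀ T, Q T w = T x q

/-- The value of the protocol of `x` if the special row of the table of `x` is removed. -/
noncomputable def v0 {n k : ℕ} (A : (Fin n → Bool) → Prot k)
    (Q : ((Fin n → Bool) → Nn n k → Bool) → List Bool → Bool) (z : Wn n k) (x : Fin n → Bool) : ℝ :=
  (A x).val (Q (tbl (zer z x)))

/-- The value of the protocol of `x`. -/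
noncomputable def v1 {n k : ℕ} (A : (Fin n → Bool) → Prot k)
    (Q : ((Fin n → Bool) → Nn n k → Bool) → List Bool → Bool) (z : Wn n k) (x : Fin n → Bool) : ℝ :=
  (A x).val (Q (tbl z))

/-- The sign of a bit. -/
def sg (b : Bool) : ℝ := if b then -1 else 1

/-- The first sum. -/
noncomputable def s0 {n k : ℕ} (A : (Fin n → Bool) → Prot k)
    (Q : ((Fin n → Bool) → Nn n k → Bool) → List Bool → Bool) (z : Wn n k) : ℝ :=
  ∑ x, sg (z x).1 * (v0 A Q z x - 1 / 2)

/-- The second sum. -/
noncomputable def s1 {n k : ℕ} (A C : (Fin n → Bool) → Prot k)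
    (Q : ((Fin n → Bool) → Nn n k → Bool) → List Bool → Bool) (z : Wn n k) : ℝ :=
  ∑ x, if (z x).1 then v0 A Q z x * (1 - v1 C Q z x) else 0

/-- The test function: it is at least `1` if the protocols are right too often. -/
noncomputable def tst {n k : ℕ} (ε : ℝ) (A C : (Fin n → Bool) → Prot k)
    (Q : ((Fin n → Bool) → Nn n k → Bool) → List Bool → Bool) (z : Wn n k) : ℝ :=
  16 / (ε ^ 2 * 4 ^ n) * s0 A Q z ^ 2 + 2 / (ε * 2 ^ n) * s1 A C Q z

section

variable (V : ℕ → Local) (E : Finset (ℕ × List Bool))
    (O : (∀ p : {a // a ∈ E}, CP (dm V) p.1) → (List Bool → Bool) → List Bool → Bool)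

open Classical in
/-- The weight of the contents `P`: the blocks of scale at most `n` are distributed like blocks which say
the answers relative to the oracle with default `g`, the others are uniform. -/
noncomputable def wgt (n : ℕ) (g : List Bool → Bool) (P : ∀ p : {a // a ∈ E}, CP (dm V) p.1) : ℝ :=
  ∏ p : {a // a ∈ E}, if scl V p.1 ≤ n then
    mBp V p.1 (decide ((V p.1.1).acc p.1.2 (O P g))) (P p) else m0p V p.1 (P p)

open Classical in
/-- The weight of the contents `P`: all blocks say the answers relative to the oracle with default `g`. -/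
noncomputable def wgl (g : List Bool → Bool) (P : ∀ p : {a // a ∈ E}, CP (dm V) p.1) : ℝ :=
  ∏ p : {a // a ∈ E}, mBp V p.1 (decide ((V p.1.1).acc p.1.2 (O P g))) (P p)

end

/-- The random choices for all levels and lengths below `M`. -/
abbrev Za (M : ℕ) : Type := ∀ t : Fin M × Fin M, Wn t.2.1 t.1.1

open Classical in
/-- The default oracle: the tables of all levels and lengths below `M`, all other strings have the value
`false`. -/
noncomputable def gza (M : ℕ) (z : Za M) (w : List Bool) : Bool :=
  if h : ∃ y : Σ t : Fin M × Fin M, (Fin t.2.1 → Bool) × Nn t.2.1 t.1.1,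
      w = astr y.1.2.1 y.1.1.1 y.2.1 y.2.2 then
    tbl (z h.choose.1) h.choose.2.1 h.choose.2.2 else false

end Pool.Agent.H66.AV
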